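import Pool.Agent.R201.KhMain

/-!
# The set of sequences of letters `2, 3` with Khintchin product sequence is meagre
-/

set_option autoImplicit false

open MeasureTheory Filter Topology Pool.Agent.R201.Kh

namespace Pool.Agent.Results.MP_83af8b_an.KhintchinMeagre

/-- the letters `2` and `3` -/
abbrev Letter : Type := {k : ℕ // k = 2 ∨ k = 3}

/-- `Ω₀ = {2, 3}^ℕ` with the product of the discrete topologies (the topology of `Letter` is the
subspace topology of the discrete space `ℕ`, so it is discrete); the letter `ω_n`, `n ≥ 1`, is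
written `ω (n - 1)` -/
abbrev Ω₀ : Type := ℕ → Letter

/-- the set `K_{2,3}` -/
def K₂₃ : Set Ω₀ := {ω | IsKhintchin (prodSeq fun k => (ω k : ℕ))}

/-- the times -/
def tt (t0 : ℕ) : ℕ → ℕ
  | 0 => t0
  | i + 1 => 2 * tt t0 i + 1

lemma tt_lt (t0 : ℕ) {i j : ℕ} (h : i < j) : 2 * tt t0 i < tt t0 j := by
  induction j with
  | zero => omega
  | succ j ih =>
    rcases Nat.lt_succ_iff_lt_or_eq.1 h with h1 | h1
    · have := ih h1
      simp only [tt]
      omega
    · subst h1
      simp only [tt]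
      omega

lemma tt_mono (t0 : ℕ) {i j : ℕ} (h : i ≤ j) : tt t0 i ≤ tt t0 j := by
  rcases Nat.lt_or_eq_of_le h with h1 | h1
  · have := tt_lt t0 h1
    omega
  · rw [h1]

lemma le_tt (t0 i : ℕ) : t0 ≤ tt t0 i := tt_mono t0 (Nat.zero_le i)

lemma S_succ_two {w : ℕ → ℕ} {n : ℕ} (h : w n = 2) : S w (n + 1) = S w n + (1, 0) := by
  unfold S
  ext <;> simp [Finset.range_add_one, Finset.filter_insert, h]

lemma S_succ_three {w : ℕ → ℕ} {n : ℕ} (h : w n = 3) : S w (n + 1) = S w n + (0, 1) := by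
  unfold S
  ext <;> simp [Finset.range_add_one, Finset.filter_insert, h]

lemma S_stretch {w : ℕ → ℕ} {t : ℕ} (j : ℕ) (h : ∀ k, t ≤ k → k < t + j → w k = 3) :
    S w (t + j) = S w t + (0, j) := by
  induction j with
  | zero => simp
  | succ j ih =>
    rw [← add_assoc, S_succ_three (h (t + j) (by omega) (by omega)),
      ih fun k hk1 hk2 => h k hk1 (by omega), add_assoc]
    simp

lemma S_snd_le (w : ℕ → ℕ) (n : ℕ) : (S w n).2 ≤ n := by
  unfold S
  exact (Finset.card_filter_le _ _).trans (Finset.card_range n).le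

/-- the pattern that produces a window -/
structure Good (w : ℕ → ℕ) (K t0 : ℕ) : Prop where
  three : ∀ i < K, ∀ k, tt t0 i ≤ k → k < 2 * tt t0 i → w k = 3
  two : ∀ i < K, w (2 * tt t0 i) = 2

lemma Good.fst {w : ℕ → ℕ} {K t0 : ℕ} (h : Good w K t0) {i : ℕ} (hi : i < K) :
    (S w (tt t0 i)).1 = (S w t0).1 + i := by
  induction i with
  | zero => rfl
  | succ i ih =>
    have h1 := ih (by omega)
    have h2 := S_stretch (w := w) (t := tt t0 i) (tt t0 i)
      (fun k hk1 hk2 => h.three i (by omega) k hk1 (by omega))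
    have h3 : S w (2 * tt t0 i + 1) = S w (2 * tt t0 i) + (1, 0) :=
      S_succ_two (h.two i (by omega))
    have h4 : tt t0 (i + 1) = 2 * tt t0 i + 1 := rfl
    rw [h4, h3, two_mul, h2]
    simp only [Prod.fst_add, h1]
    ring

/-- a window from the pattern -/
lemma Good.window {w : ℕ → ℕ} {K t0 T : ℕ} (h : Good w K t0) (hT : T ≤ t0) (h1 : 1 ≤ t0) :
    ∃ (H : Finset (ℕ × ℕ)) (t : Fin K → ℕ) (W : Fin K → Finset (ℕ × ℕ)),
    H.Nonempty ∧ (∀ i, T ≤ t i ∧ 1 ≤ t i) ∧ (∀ i j, i ≠ j → Disjoint (W i) (W j)) ∧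
    (∀ i, H.card ≤ 3 * (W i).card) ∧
    ∀ i, ∀ v ∈ W i, ∀ n, t i ≤ n → n ≤ 2 * t i → ∃ h ∈ H, v = S w n + h := by
  classical
  have hK1 : 1 ≤ tt t0 K := h1.trans (le_tt t0 K)
  have hinj : ∀ a : ℕ, Function.Injective fun b : ℕ => (a, b) := fun a b c hbc => by
    simpa using hbc
  refine ⟨(Finset.range (4 * tt t0 K)).image fun b => (0, b), fun i => tt t0 i,
    fun i => (Finset.Ico (2 * tt t0 K) (4 * tt t0 K)).image fun b => ((S w t0).1 + i, b),
    ?_, ?_, ?_, ?_, ?_⟩
  · rw [Finset.image_nonempty, Finset.nonempty_range_iff]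
    omega
  · intro i
    have := le_tt t0 i
    beta_reduce
    constructor <;> omega
  · intro i j hij
    rw [Finset.disjoint_left]
    intro v hv hv'
    simp only [Finset.mem_image, Finset.mem_Ico] at hv hv'
    obtain ⟨b, _, rfl⟩ := hv
    obtain ⟨c, _, hc⟩ := hv'
    rw [Prod.mk.injEq] at hc
    exact hij (Fin.ext (by omega))
  · intro i
    rw [Finset.card_image_of_injective _ (hinj _), Finset.card_image_of_injective _ (hinj _),
      Finset.card_range, Nat.card_Ico]
    omega
  · intro i v hv n hn1 hn2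
    beta_reduce at hn1 hn2
    simp only [Finset.mem_image, Finset.mem_Ico] at hv
    obtain ⟨b, ⟨hb1, hb2⟩, rfl⟩ := hv
    have hfst : (S w n).1 = (S w t0).1 + i := by
      obtain ⟨j, rfl⟩ := Nat.exists_eq_add_of_le hn1
      rw [S_stretch (w := w) (t := tt t0 i) j
        (fun k hk1 hk2 => h.three i i.2 k hk1 (by omega))]
      simp only [Prod.fst_add, add_zero]
      exact h.fst i.2
    have hsnd := S_snd_le w n
    have hiK : tt t0 i ≤ tt t0 K := tt_mono t0 i.2.le
    refine ⟨(0, b - (S w n).2), ?_, ?_⟩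
    · simp only [Finset.mem_image, Finset.mem_range]
      exact ⟨b - (S w n).2, by omega, rfl⟩
    · ext
      · simp [hfst]
      · simp only [Prod.snd_add]
        omega

/-- the sequences with a window pattern -/
def O (K T : ℕ) : Set Ω₀ := {ω | ∃ t0, T ≤ t0 ∧ 1 ≤ t0 ∧ Good (fun k => (ω k : ℕ)) K t0}

lemma isOpen_O (K T : ℕ) : IsOpen (O K T) := by
  rw [isOpen_iff_mem_nhds]
  rintro ω ⟨t0, hT, h1, hG⟩
  have hopen : IsOpen {ω' : Ω₀ | ∀ k ∈ Finset.range (2 * tt t0 K + 1), ω' k = ω k} := by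
    have : {ω' : Ω₀ | ∀ k ∈ Finset.range (2 * tt t0 K + 1), ω' k = ω k} =
        ⋂ k ∈ Finset.range (2 * tt t0 K + 1), (fun ω' : Ω₀ => ω' k) ⁻¹' {ω k} := by
      ext ω'
      simp
    rw [this]
    exact isOpen_biInter_finset fun k _ => (isOpen_discrete {ω k}).preimage (continuous_apply k)
  refine mem_of_superset (hopen.mem_nhds fun k _ => rfl) ?_
  intro ω' hω'
  refine ⟨t0, hT, h1, ?_, ?_⟩
  · intro i hi k hk1 hk2
    have := tt_mono t0 hi.le
    have h2 : ω' k = ω k := hω' k (Finset.mem_range.2 (by omega))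
    simp only [h2]
    exact hG.three i hi k hk1 hk2
  · intro i hi
    have := tt_mono t0 hi.le
    have h2 : ω' (2 * tt t0 i) = ω (2 * tt t0 i) := hω' _ (Finset.mem_range.2 (by omega))
    simp only [h2]
    exact hG.two i hi

lemma dense_O (K T : ℕ) : Dense (O K T) := by
  classical
  rw [dense_iff_inter_open]
  rintro U hU ⟨ω, hω⟩
  obtain ⟨I, u, hu, hIU⟩ := isOpen_pi_iff.1 hU ω hω
  set m : ℕ := I.sup id + 1 with hm
  set t0 : ℕ := max (max T m) 1 with ht0
  have hmt : m ≤ t0 := le_trans (le_max_right T m) (le_max_left _ _)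
  have hTt : T ≤ t0 := le_trans (le_max_left T m) (le_max_left _ _)
  have h1t : 1 ≤ t0 := le_max_right _ _
  let ω' : Ω₀ := fun k => if k < m then ω k else if ∃ i, k = 2 * tt t0 i then ⟨2, Or.inl rfl⟩
    else ⟨3, Or.inr rfl⟩
  refine ⟨ω', hIU ?_, t0, hTt, h1t, ?_, ?_⟩
  · intro k hk
    have hkm : k < m := by
      have : k ≤ I.sup id := Finset.le_sup (f := id) hk
      omega
    have : ω' k = ω k := if_pos hkm
    rw [this]
    exact (hu k hk).2
  · intro i _ k hk1 hk2
    have h2 := le_tt t0 i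
    have hkm : ¬ k < m := by omega
    have hne : ¬ ∃ j, k = 2 * tt t0 j := by
      rintro ⟨j, hj⟩
      rcases Nat.lt_or_ge j i with h | h
      · have := tt_lt t0 h
        omega
      · have := tt_mono t0 h
        omega
    have : ω' k = ⟨3, Or.inr rfl⟩ := by
      simp only [ω', if_neg hkm, if_neg hne]
    simp only [this]
  · intro i _
    have h2 := le_tt t0 i
    have hkm : ¬ 2 * tt t0 i < m := by omega
    have he : ∃ j, 2 * tt t0 i = 2 * tt t0 j := ⟨i, rfl⟩
    have : ω' (2 * tt t0 i) = ⟨2, Or.inl rfl⟩ := by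
      simp only [ω', if_neg hkm, if_pos he]
    simp only [this]

/-- The set `K_{2,3}` of the `ω ∈ {2, 3}^ℕ` whose product sequence is a Khintchin sequence is
meagre. More precisely, for `ω` in a residual set there is a measurable set `B` of the circle of
measure at most `1/4` such that the averages `(1/N) ∑_{n=1}^N 1_B(P_n(ω) x)` are at least `1/2` for
infinitely many `N`, for all `x` in a set of measure at least `1/2`; so `(P_n(ω))` is not even an
`L^∞`-Khintchin sequence. -/
theorem result : IsMeagre K₂₃ ∧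
    ∀ᶠ ω in residual Ω₀, ∃ B V : Set UnitAddCircle, MeasurableSet B ∧ MeasurableSet V ∧
      volume.real B ≤ 1 / 4 ∧ 1 / 2 ≤ volume.real V ∧ ∀ x ∈ V, ∃ᶠ N : ℕ in atTop,
        1 / 2 ≤ (∑ n ∈ Finset.Icc 1 N,
          B.indicator (fun _ => (1 : ℝ)) (prodSeq (fun k => (ω k : ℕ)) n • x)) / N := by
  have hres : ∀ᶠ ω in residual Ω₀, ∀ K T : ℕ, ω ∈ O K T := by
    rw [eventually_countable_forall]
    intro K
    rw [eventually_countable_forall]
    intro T
    exact residual_of_dense_open (isOpen_O K T) (dense_O K T)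
  have hrich : ∀ ω : Ω₀, (∀ K T : ℕ, ω ∈ O K T) → Rich fun k => (ω k : ℕ) := by
    intro ω h K T
    obtain ⟨t0, hT, h1, hG⟩ := h K T
    exact hG.window hT h1
  constructor
  · refine mem_of_superset hres fun ω hω => ?_
    exact rich_not_khintchin (fun k => (ω k).2) (hrich ω hω)
  · filter_upwards [hres] with ω hω
    exact rich_bad (fun k => (ω k).2) (hrich ω hω)

end Pool.Agent.Results.MP_83af8b_an.KhintchinMeagre
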